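import Pool.Agent.H798.BV.Stm5

/-! `S_GAI`, the Gaussian alternating inequality. -/

set_option autoImplicit false

namespace Pool.Agent.H658.BV

open Pool.Agent.H798.BV MeasureTheory Filter Topology

/-- `G' = s G - 1` -/
theorem gai_deriv (h2 : S_G1A) (h3 : S_G1B) (s : ℂ) : deriv gG s = s * gG s - 1 := by
  rw [← iteratedDeriv_one, h2.2 1 s, ← h3.2.1 s]
  simp only [pow_one]

theorem gai_ne (h4 : S_G2) (s : ℂ) (hs : 0 < s.re) : gG s ≠ 0 := by
  obtain ⟨e, he, hr, _, _⟩ := h4 s hs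
  intro h0
  rw [h0, Complex.zero_re] at hr
  have := mul_pos hs he
  linarith

/-- the negative logarithmic derivative of `G` -/
noncomputable def gv (s : ℂ) : ℂ := (gG s)⁻¹ - s

theorem gv_diff (h2 : S_G1A) (h4 : S_G2) : DifferentiableOn ℂ gv {s | 0 < s.re} := by
  intro s hs
  have h1 : DifferentiableAt ℂ (fun z => (gG z)⁻¹ - z) s :=
    ((h2.1 s).inv (gai_ne h4 s hs)).sub differentiableAt_id
  exact h1.differentiableWithinAt

theorem gv_re (h4 : S_G2) (s : ℂ) (hs : 0 < s.re) : 0 ≤ (gv s).re := by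
  obtain ⟨e, he, hr, hn, _⟩ := h4 s hs
  have h0 := gai_ne h4 s hs
  have hpos : 0 < Complex.normSq (gG s) := Complex.normSq_pos.mpr h0
  have h1 : s.re ≤ (gG s).re / Complex.normSq (gG s) := by
    rw [le_div_iff₀ hpos, Complex.normSq_eq_norm_sq, hr]
    exact mul_le_mul_of_nonneg_left hn hs.le
  rw [gv, Complex.sub_re, Complex.inv_re]
  linarith

theorem gv_norm (h3 : S_G1B) (h4 : S_G2) (s : ℂ) (hs : 0 < s.re) : ‖gv s‖ ≤ 1 / s.re := by
  obtain ⟨e, he, hr, _, hd⟩ := h4 s hs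
  have h0 := gai_ne h4 s hs
  have hpos : 0 < ‖gG s‖ := norm_pos_iff.mpr h0
  rw [h3.2.1 s] at hd
  have h1 : gv s = -(s * gG s - 1) / gG s := by
    rw [gv]
    field_simp
    ring
  rw [h1, norm_div, norm_neg, div_le_div_iff₀ hpos hs, one_mul]
  have h2 : s.re * e ≤ ‖gG s‖ := by
    rw [← hr]
    exact (Complex.re_le_norm _)
  calc ‖s * gG s - 1‖ * s.re ≤ e * s.re := mul_le_mul_of_nonneg_right hd hs.le
    _ = s.re * e := mul_comm _ _
    _ ≤ ‖gG s‖ := h2

/-- the Taylor series -/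
noncomputable def tay (g : ℂ → ℂ) (s : ℂ) : PowerSeries ℂ :=
  PowerSeries.mk fun n => iteratedDeriv n g s / (n.factorial : ℂ)

theorem tay_eq (h2 : S_G1A) (h3 : S_G1B) (h4 : S_G2) (s : ℂ) (hs : 0 < s.re) :
    PowerSeries.derivative ℂ (tay gG s) = -(tay gv s * tay gG s) := by
  have hopen : IsOpen {z : ℂ | 0 < z.re} := isOpen_lt continuous_const Complex.continuous_re
  have hnhds : {z : ℂ | 0 < z.re} ∈ 𝓝 s := hopen.mem_nhds hs
  have hG : AnalyticAt ℂ gG s := h2.1.analyticAt s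
  have hv : AnalyticAt ℂ gv s := (gv_diff h2 h4).analyticAt hnhds
  have hE : deriv gG =ᶠ[𝓝 s] -(gv * gG) := by
    filter_upwards [hnhds] with z hz
    have h0 := gai_ne h4 z hz
    rw [gai_deriv h2 h3, Pi.neg_apply, Pi.mul_apply, gv]
    field_simp
    ring
  ext n
  rw [PowerSeries.coeff_derivative, map_neg, PowerSeries.coeff_mul,
    Finset.Nat.sum_antidiagonal_eq_sum_range_succ_mk]
  simp only [tay, PowerSeries.coeff_mk]
  have h5 : iteratedDeriv (n + 1) gG s = -iteratedDeriv n (gv * gG) s := by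
    rw [iteratedDeriv_succ', hE.iteratedDeriv_eq, iteratedDeriv_neg]
  rw [h5, iteratedDeriv_mul hv.contDiffAt hG.contDiffAt, neg_div, neg_mul]
  congr 1
  rw [Nat.factorial_succ, Finset.sum_div, Finset.sum_mul]
  apply Finset.sum_congr rfl
  intro i hi
  have hin : i ≤ n := Nat.lt_succ_iff.mp (Finset.mem_range.mp hi)
  have a1 : (i.factorial : ℂ) ≠ 0 := Nat.cast_ne_zero.mpr (Nat.factorial_ne_zero _)
  have a2 : ((n - i).factorial : ℂ) ≠ 0 := Nat.cast_ne_zero.mpr (Nat.factorial_ne_zero _)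
  have a3 : (n.factorial : ℂ) ≠ 0 := Nat.cast_ne_zero.mpr (Nat.factorial_ne_zero _)
  have a4 : ((n : ℂ) + 1) ≠ 0 := Nat.cast_add_one_ne_zero n
  rw [Nat.cast_choose _ hin, Nat.cast_mul, Nat.cast_succ]
  field_simp

/-- the case of positive real part -/
theorem gai_pos (h1 : S_FL) (h2 : S_G1A) (h3 : S_G1B) (h4 : S_G2) (h5 : S_G3) (n : ℕ)
    (l : Fin n → ℂ) (B : Finset (Fin n)) (s : ℂ) (κ : ℝ) (hκ : κ < 1) (hs : 0 < s.re)
    (hB : ∑ k ∈ B, ‖l k‖ ≤ κ * s.re) :
    ‖gG s‖ * (1 - κ) ≤ ‖∫ x in Set.Ioi (0:ℝ), (∏ k ∈ B, (1 - (x : ℂ) * l k)) *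
      Complex.exp (-((x : ℂ) * s) - (x : ℂ) ^ 2 / 2)‖ := by
  have hu : ∀ j, ‖PowerSeries.coeff j (tay gv s)‖ ≤ (1 / s.re) ^ (j + 1) := by
    intro j
    rw [tay, PowerSeries.coeff_mk]
    rcases Nat.eq_zero_or_pos j with rfl | hj
    · simpa using gv_norm h3 h4 s hs
    · rw [norm_div, Complex.norm_natCast]
      calc ‖iteratedDeriv j gv s‖ / (j.factorial : ℝ) ≤ (gv s).re / s.re ^ j :=
            h5 gv (gv_diff h2 h4) (gv_re h4) s j hs hj
        _ ≤ (1 / s.re) / s.re ^ j := by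
            apply div_le_div_of_nonneg_right _ (pow_nonneg hs.le _)
            exact (Complex.re_le_norm _).trans (gv_norm h3 h4 s hs)
        _ = (1 / s.re) ^ (j + 1) := by
            rw [pow_succ, one_div_pow]
            ring
  have hlt : ∑ k ∈ B, ‖l k‖ < s.re := by
    refine lt_of_le_of_lt hB ?_
    calc κ * s.re < 1 * s.re := mul_lt_mul_of_pos_right hκ hs
      _ = s.re := one_mul _
  have h6 := h1 n l B (tay gG s) (tay gv s) s.re hs (tay_eq h2 h3 h4 s hs) hu hlt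
  have e1 : PowerSeries.coeff 0 (tay gG s) = gG s := by
    rw [tay, PowerSeries.coeff_mk]
    simp
  have e2 : ∑ S ∈ B.powerset, (∏ k ∈ S, l k) *
      ((S.card.factorial : ℂ) * PowerSeries.coeff S.card (tay gG s)) =
      ∫ x in Set.Ioi (0:ℝ), (∏ k ∈ B, (1 - (x : ℂ) * l k)) *
        Complex.exp (-((x : ℂ) * s) - (x : ℂ) ^ 2 / 2) := by
    rw [h3.2.2 n l B s]
    apply Finset.sum_congr rfl
    intro S _
    rw [tay, PowerSeries.coeff_mk, h2.2, mul_div_cancel₀]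
    exact Nat.cast_ne_zero.mpr (Nat.factorial_ne_zero _)
  rw [e1, e2] at h6
  refine le_trans ?_ h6
  apply mul_le_mul_of_nonneg_left _ (norm_nonneg _)
  have h7 : (∑ k ∈ B, ‖l k‖) / s.re ≤ κ := by
    rw [div_le_iff₀ hs]
    exact hB
  linarith

/-- `G` has no zero on the imaginary axis -/
theorem gai_axis (s : ℂ) (hs : s.re = 0) : gG s ≠ 0 := by
  intro h0
  have hconj : gG (-s) = (starRingEnd ℂ) (gG s) := by
    unfold gG
    rw [← integral_conj]
    apply integral_congr_ae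
    filter_upwards with x
    rw [← Complex.exp_conj]
    congr 1
    have hsc : (starRingEnd ℂ) s = -s := by
      apply Complex.ext
      · simp [hs]
      · simp
    rw [map_sub, map_neg, map_mul, map_div₀, map_pow, Complex.conj_ofReal, hsc, map_ofNat]
  have hint : Integrable (fun x : ℝ => Complex.exp (-((x : ℂ) * s) - (x : ℂ) ^ 2 / 2)) := by
    have h1 := integrable_cexp_quadratic (b := 1 / 2) (by norm_num) (-s) 0
    refine h1.congr (Filter.Eventually.of_forall fun x => ?_)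
    show Complex.exp _ = Complex.exp _
    congr 1
    ring
  have hIic : ∫ x in Set.Iic (0:ℝ), Complex.exp (-((x : ℂ) * s) - (x : ℂ) ^ 2 / 2) = gG (-s) := by
    unfold gG
    have e := integral_comp_neg_Iic (0:ℝ)
      (fun x : ℝ => Complex.exp (-((x : ℂ) * -s) - (x : ℂ) ^ 2 / 2))
    rw [neg_zero] at e
    rw [← e]
    apply integral_congr_ae
    filter_upwards with x
    congr 1
    push_cast
    ring
  have hsum := intervalIntegral.integral_Iic_add_Ioi (b := (0:ℝ)) hint.integrableOn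
    hint.integrableOn
  rw [hIic] at hsum
  have hIoi : ∫ x in Set.Ioi (0:ℝ), Complex.exp (-((x : ℂ) * s) - (x : ℂ) ^ 2 / 2) = gG s := rfl
  rw [hIoi, hconj, h0, map_zero, add_zero] at hsum
  have hs' : s = Complex.I * (s.im : ℂ) := by
    apply Complex.ext
    · simp [hs]
    · simp
  have hF := fourierIntegral_gaussian (b := 1 / 2) (by norm_num) (-(s.im : ℂ))
  have hF2 : ∫ x : ℝ, Complex.exp (-((x : ℂ) * s) - (x : ℂ) ^ 2 / 2) =
      ∫ x : ℝ, Complex.exp (Complex.I * (-(s.im : ℂ)) * x) * Complex.exp (-(1 / 2) * x ^ 2) := by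
    apply integral_congr_ae
    filter_upwards with x
    rw [← Complex.exp_add]
    congr 1
    conv_lhs => rw [hs']
    ring
  rw [hF2, hF] at hsum
  have hne : (Real.pi / (1 / 2) : ℂ) ^ (1 / 2 : ℂ) ≠ 0 := by
    intro h
    rw [Complex.cpow_eq_zero_iff] at h
    have h1 : (Real.pi : ℂ) ≠ 0 := Complex.ofReal_ne_zero.mpr Real.pi_ne_zero
    have h2 : (Real.pi / (1 / 2) : ℂ) ≠ 0 := div_ne_zero h1 (by norm_num)
    exact h2 h.1
  exact mul_ne_zero hne (Complex.exp_ne_zero _) hsum.symm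

theorem t_GAI (h1 : S_FL) (h2 : S_G1A) (h3 : S_G1B) (h4 : S_G2) (h5 : S_G3) : S_GAI := by
  intro K hK
  have hne : ∀ s : ℂ, 0 ≤ s.re → gG s ≠ 0 := by
    intro s hs
    rcases eq_or_lt_of_le hs with h | h
    · exact gai_axis s h.symm
    · exact gai_ne h4 s h
  have hcl : IsClosed {z : ℂ | 0 ≤ z.re} := isClosed_le continuous_const Complex.continuous_re
  have hcomp : IsCompact (Metric.closedBall (0:ℂ) K ∩ {z : ℂ | 0 ≤ z.re}) :=
    (isCompact_closedBall (0:ℂ) K).inter_right hcl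
  have hnon : (Metric.closedBall (0:ℂ) K ∩ {z : ℂ | 0 ≤ z.re}).Nonempty :=
    ⟨0, Metric.mem_closedBall_self hK.le, le_of_eq Complex.zero_re.symm⟩
  obtain ⟨s0, hs0, hmin⟩ := hcomp.exists_isMinOn hnon (h2.1.continuous.norm.continuousOn)
  refine ⟨‖gG s0‖, norm_pos_iff.mpr (hne s0 hs0.2), ?_⟩
  intro n l B s κ hκ0 hκ1 hs hsK hB
  have hmem : s ∈ Metric.closedBall (0:ℂ) K ∩ {z : ℂ | 0 ≤ z.re} := by
    refine ⟨?_, hs⟩
    rw [mem_closedBall_zero_iff]
    exact hsK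
  have hc : ‖gG s0‖ ≤ ‖gG s‖ := hmin hmem
  rcases eq_or_lt_of_le hs with h | h
  · have h0 : ∑ k ∈ B, ‖l k‖ ≤ 0 := by
      rw [← h, mul_zero] at hB
      exact hB
    have h0' : ∑ k ∈ B, ‖l k‖ = 0 := le_antisymm h0 (Finset.sum_nonneg fun k _ => norm_nonneg _)
    have hl : ∀ k ∈ B, l k = 0 := fun k hk =>
      norm_eq_zero.mp ((Finset.sum_eq_zero_iff_of_nonneg fun k _ => norm_nonneg _).mp h0' k hk)
    have e1 : ∫ x in Set.Ioi (0:ℝ), (∏ k ∈ B, (1 - (x : ℂ) * l k)) *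
        Complex.exp (-((x : ℂ) * s) - (x : ℂ) ^ 2 / 2) = gG s := by
      unfold gG
      apply integral_congr_ae
      filter_upwards with x
      have e2 : ∏ k ∈ B, (1 - (x : ℂ) * l k) = 1 := by
        apply Finset.prod_eq_one
        intro k hk
        rw [hl k hk, mul_zero, sub_zero]
      rw [e2, one_mul]
    rw [e1]
    calc (1 - κ) * ‖gG s0‖ ≤ 1 * ‖gG s0‖ :=
          mul_le_mul_of_nonneg_right (by linarith) (norm_nonneg _)
      _ = ‖gG s0‖ := one_mul _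
      _ ≤ ‖gG s‖ := hc
  · calc (1 - κ) * ‖gG s0‖ ≤ (1 - κ) * ‖gG s‖ := mul_le_mul_of_nonneg_left hc (by linarith)
      _ = ‖gG s‖ * (1 - κ) := mul_comm _ _
      _ ≤ _ := gai_pos h1 h2 h3 h4 h5 n l B s κ hκ1 h hB

end Pool.Agent.H658.BV
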